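import Mathlib

set_option autoImplicit false
open Finset

/-! Deterministic facts on nearest-neighbour paths on the integers: upcrossings, downcrossings and
favorite one-side sites. -/

namespace Pool.Agent.H75.Fav

/-- Number of upcrossings of `x` by time `n`. -/
def xiU (s : ℕ → ℤ) (x : ℤ) (n : ℕ) : ℕ :=
  ((range n).filter (fun k => s k = x - 1 ∧ s (k + 1) = x)).card

/-- Number of downcrossings of `x` by time `n`. -/
def xiD (s : ℕ → ℤ) (x : ℤ) (n : ℕ) : ℕ :=
  ((range n).filter (fun k => s k = x + 1 ∧ s (k + 1) = x)).card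

/-- The larger of the two numbers. -/
def xiS (s : ℕ → ℤ) (x : ℤ) (n : ℕ) : ℕ := max (xiU s x n) (xiD s x n)

/-- Favorite one-side sites at time `n`. -/
def fav (s : ℕ → ℤ) (n : ℕ) : Set ℤ := {x | ∀ y, xiS s y n ≤ xiS s x n}

/-- Nearest-neighbour paths from `0`. -/
structure NN (s : ℕ → ℤ) : Prop where
  zero : s 0 = 0
  step : ∀ n, s (n + 1) = s n + 1 ∨ s (n + 1) = s n - 1

lemma xiU_succ (s : ℕ → ℤ) (x : ℤ) (n : ℕ) :
    xiU s x (n + 1) = xiU s x n + (if s n = x - 1 ∧ s (n + 1) = x then 1 else 0) := by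
  unfold xiU
  rw [range_add_one, filter_insert]
  split_ifs with h
  · rw [card_insert_of_notMem (by simp)]
  · rfl

lemma xiD_succ (s : ℕ → ℤ) (x : ℤ) (n : ℕ) :
    xiD s x (n + 1) = xiD s x n + (if s n = x + 1 ∧ s (n + 1) = x then 1 else 0) := by
  unfold xiD
  rw [range_add_one, filter_insert]
  split_ifs with h
  · rw [card_insert_of_notMem (by simp)]
  · rfl

lemma xiU_zero (s : ℕ → ℤ) (x : ℤ) : xiU s x 0 = 0 := by simp [xiU]
lemma xiD_zero (s : ℕ → ℤ) (x : ℤ) : xiD s x 0 = 0 := by simp [xiD]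

lemma xiU_le_succ (s : ℕ → ℤ) (x : ℤ) (n : ℕ) : xiU s x n ≤ xiU s x (n + 1) := by
  rw [xiU_succ]; omega
lemma xiD_le_succ (s : ℕ → ℤ) (x : ℤ) (n : ℕ) : xiD s x n ≤ xiD s x (n + 1) := by
  rw [xiD_succ]; omega

lemma xiU_same (s : ℕ → ℤ) (x : ℤ) (n : ℕ) (h : s (n + 1) ≠ x ∨ s n ≠ x - 1) :
    xiU s x (n + 1) = xiU s x n := by
  rw [xiU_succ, if_neg (by tauto)]; rfl
lemma xiD_same (s : ℕ → ℤ) (x : ℤ) (n : ℕ) (h : s (n + 1) ≠ x ∨ s n ≠ x + 1) :
    xiD s x (n + 1) = xiD s x n := by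
  rw [xiD_succ, if_neg (by tauto)]; rfl

/-- Flow identity across the edge from `x` to `x + 1`. -/
lemma flow {s : ℕ → ℤ} (hs : NN s) (x : ℤ) (n : ℕ) :
    (xiU s (x + 1) n : ℤ) - xiD s x n =
      (if 0 ≤ x ∧ x < s n then 1 else 0) - (if s n ≤ x ∧ x < 0 then 1 else 0) := by
  induction n with
  | zero =>
    rw [xiU_zero, xiD_zero, hs.zero]
    split_ifs <;> omega
  | succ n ih =>
    rw [xiU_succ, xiD_succ]
    push_cast
    rcases hs.step n with h | h <;> split_ifs at ih ⊢ <;> omega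

/-- Running maximum of the counts. -/
def Mx (s : ℕ → ℤ) : ℕ → ℕ
  | 0 => 0
  | n + 1 => max (Mx s n) (xiS s (s (n + 1)) (n + 1))

lemma xiS_same (s : ℕ → ℤ) (x : ℤ) (n : ℕ) (h : s (n + 1) ≠ x) :
    xiS s x (n + 1) = xiS s x n := by
  unfold xiS; rw [xiU_same s x n (Or.inl h), xiD_same s x n (Or.inl h)]

lemma xiS_le_succ (s : ℕ → ℤ) (x : ℤ) (n : ℕ) : xiS s x n ≤ xiS s x (n + 1) :=
  max_le_max (xiU_le_succ s x n) (xiD_le_succ s x n)

lemma xiS_succ_le (s : ℕ → ℤ) (x : ℤ) (n : ℕ) : xiS s x (n + 1) ≤ xiS s x n + 1 := by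
  unfold xiS
  rw [xiU_succ, xiD_succ]
  split_ifs <;> omega

lemma xiS_le_Mx (s : ℕ → ℤ) (x : ℤ) (n : ℕ) : xiS s x n ≤ Mx s n := by
  induction n with
  | zero => simp [xiS, xiU_zero, xiD_zero]
  | succ n ih =>
    by_cases h : s (n + 1) = x
    · rw [← h]; exact le_max_right _ _
    · rw [xiS_same s x n h]; exact ih.trans (le_max_left _ _)

lemma Mx_attained (s : ℕ → ℤ) (n : ℕ) : ∃ x, xiS s x n = Mx s n := by
  induction n with
  | zero => exact ⟨0, by simp [xiS, xiU_zero, xiD_zero, Mx]⟩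
  | succ n ih =>
    obtain ⟨x, hx⟩ := ih
    rcases le_total (Mx s n) (xiS s (s (n + 1)) (n + 1)) with h | h
    · exact ⟨s (n + 1), by simp only [Mx]; rw [max_eq_right h]⟩
    · refine ⟨x, le_antisymm (xiS_le_Mx s x (n + 1)) ?_⟩
      simp only [Mx]; rw [max_eq_left h, ← hx]; exact xiS_le_succ s x n

lemma mem_fav (s : ℕ → ℤ) (x : ℤ) (n : ℕ) : x ∈ fav s n ↔ xiS s x n = Mx s n := by
  constructor
  · intro h
    obtain ⟨y, hy⟩ := Mx_attained s n
    exact le_antisymm (xiS_le_Mx s x n) (hy ▸ h y)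
  · intro h y
    rw [h]; exact xiS_le_Mx s y n

lemma Mx_le_succ (s : ℕ → ℤ) (n : ℕ) : Mx s n ≤ Mx s (n + 1) := le_max_left _ _

lemma Mx_mono (s : ℕ → ℤ) : Monotone (Mx s) := monotone_nat_of_le_succ (Mx_le_succ s)

lemma Mx_succ_le (s : ℕ → ℤ) (n : ℕ) : Mx s (n + 1) ≤ Mx s n + 1 := by
  have h1 := xiS_succ_le s (s (n + 1)) n
  have h2 := xiS_le_Mx s (s (n + 1)) n
  simp only [Mx]
  omega

/-- The step `n → n + 1` is a record. -/
def Rec (s : ℕ → ℤ) (n : ℕ) : Prop := Mx s (n + 1) = Mx s n + 1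

lemma not_rec {s : ℕ → ℤ} {n : ℕ} (h : ¬ Rec s n) : Mx s (n + 1) = Mx s n := by
  have h1 := Mx_le_succ s n
  have h2 := Mx_succ_le s n
  unfold Rec at h
  omega

lemma fav_rec {s : ℕ → ℤ} {n : ℕ} (h : Rec s n) : fav s (n + 1) = {s (n + 1)} := by
  unfold Rec at h
  ext x
  rw [mem_fav, Set.mem_singleton_iff]
  constructor
  · intro hx
    by_contra hne
    rw [xiS_same s x n (fun h' => hne h'.symm)] at hx
    have := xiS_le_Mx s x n
    omega
  · intro hx
    have h1 : Mx s (n + 1) = max (Mx s n) (xiS s (s (n + 1)) (n + 1)) := rfl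
    rw [hx]
    omega

lemma fav_grow {s : ℕ → ℤ} {n : ℕ} (h : Mx s (n + 1) = Mx s n) :
    fav s n ⊆ fav s (n + 1) ∧ fav s (n + 1) ⊆ insert (s (n + 1)) (fav s n) := by
  constructor
  · intro x hx
    rw [mem_fav] at hx ⊢
    have h1 := xiS_le_Mx s x (n + 1)
    have h2 := xiS_le_succ s x n
    omega
  · intro x hx
    rw [mem_fav] at hx
    by_cases hne : s (n + 1) = x
    · left; exact hne.symm
    · right
      rw [mem_fav, ← xiS_same s x n hne, hx, h]

/-- Records are attained by outward steps. -/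
lemma rec_outward {s : ℕ → ℤ} (hs : NN s) {n : ℕ} (h : Rec s n) :
    (s (n + 1) = s n + 1 ∧ 0 ≤ s n ∧ xiU s (s (n + 1)) (n + 1) = Mx s (n + 1)) ∨
    (s (n + 1) = s n - 1 ∧ s n ≤ 0 ∧ xiD s (s (n + 1)) (n + 1) = Mx s (n + 1)) := by
  have hm : Mx s (n + 1) = max (Mx s n) (xiS s (s (n + 1)) (n + 1)) := rfl
  have hr : Mx s (n + 1) = Mx s n + 1 := h
  have hx : xiS s (s (n + 1)) (n + 1) = Mx s (n + 1) := by omega
  rcases hs.step n with h1 | h1
  · left
    have hD : xiD s (s (n + 1)) (n + 1) = xiD s (s (n + 1)) n :=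
      xiD_same s _ n (Or.inr (by omega))
    have hD' : xiD s (s (n + 1)) n ≤ Mx s n := (le_max_right _ _).trans (xiS_le_Mx s _ n)
    have hU : xiU s (s (n + 1)) (n + 1) = Mx s (n + 1) := by
      unfold xiS at hx; omega
    refine ⟨h1, ?_, hU⟩
    by_contra hneg
    have hf := flow hs (s n) (n + 1)
    rw [if_neg (by omega), if_neg (by omega), ← h1, hU] at hf
    have hD2 : xiD s (s n) (n + 1) = xiD s (s n) n := xiD_same s _ n (Or.inl (by omega))
    have hD3 : xiD s (s n) n ≤ Mx s n := (le_max_right _ _).trans (xiS_le_Mx s _ n)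
    omega
  · right
    have hU : xiU s (s (n + 1)) (n + 1) = xiU s (s (n + 1)) n :=
      xiU_same s _ n (Or.inr (by omega))
    have hU' : xiU s (s (n + 1)) n ≤ Mx s n := (le_max_left _ _).trans (xiS_le_Mx s _ n)
    have hD : xiD s (s (n + 1)) (n + 1) = Mx s (n + 1) := by
      unfold xiS at hx; omega
    refine ⟨h1, ?_, hD⟩
    by_contra hneg
    have hf := flow hs (s (n + 1)) (n + 1)
    rw [if_neg (by omega), if_neg (by omega), hD] at hf
    have e : s (n + 1) + 1 = s n := by omega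
    rw [e] at hf
    have hU2 : xiU s (s n) (n + 1) = xiU s (s n) n := xiU_same s _ n (Or.inl (by omega))
    have hU3 : xiU s (s n) n ≤ Mx s n := (le_max_left _ _).trans (xiS_le_Mx s _ n)
    omega

/-- Just before a record both ends of the edge are favorite. -/
lemma before_rec {s : ℕ → ℤ} (hs : NN s) {n : ℕ} (h : Rec s n) :
    s n ∈ fav s n ∧ s (n + 1) ∈ fav s n := by
  have hr : Mx s (n + 1) = Mx s n + 1 := h
  rcases rec_outward hs h with ⟨h1, h2, h3⟩ | ⟨h1, h2, h3⟩
  · have hU : xiU s (s (n + 1)) n = Mx s n := by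
      have := xiU_succ s (s (n + 1)) n
      rw [if_pos (by omega)] at this
      omega
    have hf := flow hs (s n) n
    rw [if_neg (by omega), if_neg (by omega), ← h1, hU] at hf
    have hD : xiD s (s n) n = Mx s n := by omega
    constructor
    · rw [mem_fav]
      exact le_antisymm (xiS_le_Mx s _ n) (by rw [← hD]; exact le_max_right _ _)
    · rw [mem_fav]
      refine le_antisymm (xiS_le_Mx s _ n) ?_
      conv_lhs => rw [← hU]
      exact le_max_left _ _
  · have hD : xiD s (s (n + 1)) n = Mx s n := by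
      have := xiD_succ s (s (n + 1)) n
      rw [if_pos (by omega)] at this
      omega
    have hf := flow hs (s (n + 1)) n
    rw [if_neg (by omega), if_neg (by omega), hD] at hf
    have e : s (n + 1) + 1 = s n := by omega
    rw [e] at hf
    have hU : xiU s (s n) n = Mx s n := by omega
    constructor
    · rw [mem_fav]
      exact le_antisymm (xiS_le_Mx s _ n) (by rw [← hU]; exact le_max_left _ _)
    · rw [mem_fav]
      refine le_antisymm (xiS_le_Mx s _ n) ?_
      conv_lhs => rw [← hD]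
      exact le_max_right _ _

/-- Between two records the number of favorite sites starts at one and grows by at most one. -/
lemma pass_three {s : ℕ → ℤ} {r : ℕ} (hr : Rec s r) :
    ∀ n, r + 1 ≤ n → (∀ k, r + 1 ≤ k → k < n → ¬ Rec s k) →
      (fav s n).Finite ∧ s (r + 1) ∈ fav s n ∧
      (3 ≤ (fav s n).ncard → ∃ k, r + 1 ≤ k ∧ k ≤ n ∧ (fav s k).ncard = 3) := by
  intro n hn
  induction n, hn using Nat.le_induction with
  | base =>
    intro _
    rw [fav_rec hr]
    refine ⟨Set.finite_singleton _, rfl, ?_⟩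
    intro h
    rw [Set.ncard_singleton] at h
    omega
  | succ n hn ih =>
    intro hno
    obtain ⟨hf, hmem, h3⟩ := ih (fun k h1 h2 => hno k h1 (by omega))
    have hM := not_rec (hno n hn (by omega))
    obtain ⟨g1, g2⟩ := fav_grow hM
    have hfin : (fav s (n + 1)).Finite := (hf.insert _).subset g2
    refine ⟨hfin, g1 hmem, ?_⟩
    intro hc
    by_cases hlt : 3 ≤ (fav s n).ncard
    · obtain ⟨k, k1, k2, k3⟩ := h3 hlt
      exact ⟨k, k1, by omega, k3⟩
    · refine ⟨n + 1, by omega, le_rfl, ?_⟩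
      have h4 : (fav s (n + 1)).ncard ≤ (fav s n).ncard + 1 :=
        (Set.ncard_le_ncard g2 (hf.insert _)).trans (Set.ncard_insert_le _ _)
      omega

/-- Two consecutive records: same edge, adjacent edge, or three favorite sites in between. -/
lemma two_records {s : ℕ → ℤ} (hs : NN s) {r r' : ℕ} (hr : Rec s r) (hr' : Rec s r')
    (hlt : r + 1 ≤ r') (hno : ∀ k, r + 1 ≤ k → k < r' → ¬ Rec s k) :
    s (r + 1) = s (r' + 1) ∨ s (r + 1) = s r' ∨
      ∃ k, r + 1 ≤ k ∧ k ≤ r' ∧ (fav s k).ncard = 3 := by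
  obtain ⟨hf, hmem, h3⟩ := pass_three hr r' hlt hno
  obtain ⟨m1, m2⟩ := before_rec hs hr'
  by_cases e1 : s (r + 1) = s (r' + 1)
  · exact Or.inl e1
  by_cases e2 : s (r + 1) = s r'
  · exact Or.inr (Or.inl e2)
  right; right
  apply h3
  have e3 : s r' ≠ s (r' + 1) := by
    rcases hs.step r' with h | h <;> omega
  have hsub : ({s (r + 1), s r', s (r' + 1)} : Set ℤ) ⊆ fav s r' := by
    intro x hx
    rcases hx with rfl | rfl | rfl
    · exact hmem
    · exact m1
    · exact m2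
  have hcard : ({s (r + 1), s r', s (r' + 1)} : Set ℤ).ncard = 3 := by
    rw [Set.ncard_eq_three]
    exact ⟨_, _, _, e2, e1, e3, rfl⟩
  rw [← hcard]
  exact Set.ncard_le_ncard hsub hf

/-- Adjacent switch on the positive side. -/
def AdjP (s : ℕ → ℤ) (n : ℕ) : Prop :=
  Rec s n ∧ s (n + 1) = s n + 1 ∧ 1 ≤ s n ∧ xiU s (s n) (n + 1) + 1 = Mx s (n + 1)

/-- Adjacent switch on the negative side. -/
def AdjN (s : ℕ → ℤ) (n : ℕ) : Prop :=
  Rec s n ∧ s (n + 1) = s n - 1 ∧ s n ≤ -1 ∧ xiD s (s n) (n + 1) + 1 = Mx s (n + 1)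

/-- One step of the growth of the favorite set. -/
lemma fav_step {s : ℕ → ℤ} {n : ℕ} (h : xiS s (s (n + 1)) (n + 1) ≤ Mx s n) :
    Mx s (n + 1) = Mx s n ∧ ∀ x, x ∈ fav s (n + 1) ↔
      (x ∈ fav s n ∨ (x = s (n + 1) ∧ xiS s (s (n + 1)) (n + 1) = Mx s n)) := by
  have hM : Mx s (n + 1) = Mx s n := by
    have h1 : Mx s (n + 1) = max (Mx s n) (xiS s (s (n + 1)) (n + 1)) := rfl
    omega
  refine ⟨hM, ?_⟩
  intro x
  obtain ⟨g1, g2⟩ := fav_grow hM
  constructor
  · intro hx
    rcases g2 hx with h1 | h1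
    · right
      refine ⟨h1, ?_⟩
      rw [mem_fav, h1] at hx
      omega
    · left; exact h1
  · rintro (h1 | ⟨h1, h2⟩)
    · exact g1 h1
    · rw [mem_fav, h1]; omega

lemma patternP {s : ℕ → ℤ} (hs : NN s) {n : ℕ} (h : AdjP s n) (h1 : s (n + 2) = s (n + 1) - 1)
    (h2 : s (n + 3) = s (n + 2) - 1) (h3 : s (n + 4) = s (n + 3) + 1)
    (h4 : s (n + 5) = s (n + 4) - 1) : (fav s (n + 5)).ncard = 3 := by
  obtain ⟨hr, hs1, hpos, hU⟩ := h
  set b := s n with hb
  set m := Mx s (n + 1) with hm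
  have hM : m = Mx s n + 1 := hr
  have hfav := fav_rec hr
  have b1 : s (n + 1) = b + 1 := hs1
  have b2 : s (n + 2) = b := by omega
  have b3 : s (n + 3) = b - 1 := by omega
  have b4 : s (n + 4) = b := by omega
  have b5 : s (n + 5) = b - 1 := by omega
  -- counts at time n + 1
  have hU1 : xiU s (b + 1) (n + 1) = m := by
    rcases rec_outward hs hr with ⟨_, _, h7⟩ | ⟨h5, _, _⟩
    · rw [b1] at h7; exact h7
    · omega
  have hD1 : xiD s b (n + 1) + 1 = m := by
    have := flow hs b (n + 1)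
    rw [if_pos (by omega), if_neg (by omega), hU1] at this
    omega
  have hD0 : xiD s (b - 1) (n + 1) + 2 = m := by
    have := flow hs (b - 1) (n + 1)
    rw [if_pos (by omega), if_neg (by omega), sub_add_cancel] at this
    omega
  have hX0 : xiS s (b - 1) (n + 1) < m := by
    have h5 := xiS_le_Mx s (b - 1) (n + 1)
    have h6 : b - 1 ∉ fav s (n + 1) := by
      rw [hfav, b1, Set.mem_singleton_iff]; omega
    rw [mem_fav] at h6
    omega
  have hU0 : xiU s (b - 1) (n + 1) < m := lt_of_le_of_lt (le_max_left _ _) hX0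
  -- time n + 2
  have c2 : xiS s (s (n + 1 + 1)) (n + 1 + 1) = m := by
    rw [show n + 1 + 1 = n + 2 from rfl, b2]
    unfold xiS
    rw [show n + 2 = n + 1 + 1 from rfl, xiU_same s b (n + 1) (Or.inr (by omega)),
      xiD_succ, if_pos (by constructor <;> [omega; (rw [show n + 1 + 1 = n + 2 from rfl]; omega)])]
    omega
  obtain ⟨M2, f2⟩ := fav_step (s := s) (n := n + 1) (by rw [c2])
  -- time n + 3
  have c3 : xiS s (s (n + 2 + 1)) (n + 2 + 1) + 1 = m := by
    rw [show n + 2 + 1 = n + 3 from rfl, b3]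
    unfold xiS
    rw [show n + 3 = n + 2 + 1 from rfl, xiU_same s (b - 1) (n + 2) (Or.inr (by omega)),
      xiD_succ, if_pos (by constructor <;> [omega; (rw [show n + 2 + 1 = n + 3 from rfl]; omega)]),
      show n + 2 = n + 1 + 1 from rfl,
      xiU_same s (b - 1) (n + 1) (Or.inr (by omega)),
      xiD_same s (b - 1) (n + 1) (Or.inl (by rw [show n + 1 + 1 = n + 2 from rfl]; omega))]
    omega
  obtain ⟨M3, f3⟩ := fav_step (s := s) (n := n + 2) (by
    rw [show n + 2 = n + 1 + 1 from rfl, M2]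
    rw [show n + 1 + 1 + 1 = n + 2 + 1 from rfl]; omega)
  -- time n + 4
  have c4 : xiS s (s (n + 3 + 1)) (n + 3 + 1) = m := by
    rw [show n + 3 + 1 = n + 4 from rfl, b4]
    unfold xiS
    rw [show n + 4 = n + 3 + 1 from rfl, xiD_same s b (n + 3) (Or.inr (by omega)),
      xiU_succ, if_pos (by constructor <;> [omega; (rw [show n + 3 + 1 = n + 4 from rfl]; omega)]),
      show n + 3 = n + 2 + 1 from rfl,
      xiU_same s b (n + 2) (Or.inr (by omega)),
      xiD_same s b (n + 2) (Or.inl (by rw [show n + 2 + 1 = n + 3 from rfl]; omega)),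
      show n + 2 = n + 1 + 1 from rfl,
      xiU_same s b (n + 1) (Or.inr (by omega)),
      xiD_succ, if_pos (by constructor <;> [omega; (rw [show n + 1 + 1 = n + 2 from rfl]; omega)])]
    omega
  have M3' : Mx s (n + 3) = m := by
    rw [show n + 3 = n + 2 + 1 from rfl, M3, show n + 2 = n + 1 + 1 from rfl, M2]
  obtain ⟨M4, f4⟩ := fav_step (s := s) (n := n + 3) (by rw [c4, M3'])
  -- time n + 5
  have c5 : xiS s (s (n + 4 + 1)) (n + 4 + 1) = m := by
    rw [show n + 4 + 1 = n + 5 from rfl, b5]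
    unfold xiS
    rw [show n + 5 = n + 4 + 1 from rfl, xiU_same s (b - 1) (n + 4) (Or.inr (by omega)),
      xiD_succ, if_pos (by constructor <;> [omega; (rw [show n + 4 + 1 = n + 5 from rfl]; omega)]),
      show n + 4 = n + 3 + 1 from rfl,
      xiU_same s (b - 1) (n + 3) (Or.inl (by rw [show n + 3 + 1 = n + 4 from rfl]; omega)),
      xiD_same s (b - 1) (n + 3) (Or.inl (by rw [show n + 3 + 1 = n + 4 from rfl]; omega)),
      show n + 3 = n + 2 + 1 from rfl,
      xiU_same s (b - 1) (n + 2) (Or.inr (by omega)),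
      xiD_succ, if_pos (by constructor <;> [omega; (rw [show n + 2 + 1 = n + 3 from rfl]; omega)]),
      show n + 2 = n + 1 + 1 from rfl,
      xiU_same s (b - 1) (n + 1) (Or.inr (by omega)),
      xiD_same s (b - 1) (n + 1) (Or.inl (by rw [show n + 1 + 1 = n + 2 from rfl]; omega))]
    omega
  have M4' : Mx s (n + 4) = m := by
    rw [show n + 4 = n + 3 + 1 from rfl, M4, M3']
  obtain ⟨M5, f5⟩ := fav_step (s := s) (n := n + 4) (by rw [c5, M4'])
  have f2' : ∀ x, x ∈ fav s (n + 2) ↔ x = b + 1 ∨ x = b := by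
    intro x
    have := f2 x
    rw [c2, show n + 1 + 1 = n + 2 from rfl, b2, hfav, b1, Set.mem_singleton_iff] at this
    rw [this]
    simp [← hm]
  have f3' : ∀ x, x ∈ fav s (n + 3) ↔ x = b + 1 ∨ x = b := by
    intro x
    have h5 := f3 x
    have h6 : xiS s (s (n + 2 + 1)) (n + 2 + 1) ≠ Mx s (n + 2) := by
      rw [show n + 2 = n + 1 + 1 from rfl, M2, show n + 1 + 1 + 1 = n + 2 + 1 from rfl]
      omega
    rw [show n + 2 + 1 = n + 3 from rfl, f2' x] at h5
    rw [h5]
    constructor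
    · rintro (h7 | ⟨_, h7⟩)
      · exact h7
      · exact absurd h7 h6
    · intro h7; exact Or.inl h7
  have f4' : ∀ x, x ∈ fav s (n + 4) ↔ x = b + 1 ∨ x = b := by
    intro x
    have h5 := f4 x
    rw [c4, M3', show n + 3 + 1 = n + 4 from rfl, b4, f3' x] at h5
    rw [h5]
    simp
  have f5' : ∀ x, x ∈ fav s (n + 5) ↔ x = b + 1 ∨ x = b ∨ x = b - 1 := by
    intro x
    have h5 := f5 x
    rw [c5, M4', show n + 4 + 1 = n + 5 from rfl, b5, f4' x] at h5
    rw [h5]
    simp only [and_true]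
    tauto
  have hset : fav s (n + 5) = {b + 1, b, b - 1} := by
    ext x
    rw [f5' x]
    simp only [Set.mem_insert_iff, Set.mem_singleton_iff]
  rw [hset, Set.ncard_eq_three]
  exact ⟨_, _, _, by omega, by omega, by omega, rfl⟩

end Pool.Agent.H75.Fav
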