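import Mathlib
import Pool.Agent.H75.Fav.Path

set_option autoImplicit false
open Finset Filter

/-! Reflection, and the deterministic end of the argument. -/

namespace Pool.Agent.H75.Fav

lemma nn_neg {s : ℕ → ℤ} (hs : NN s) : NN (fun n => - s n) := by
  refine ⟨by simp [hs.zero], fun n => ?_⟩
  rcases hs.step n with h | h
  · right; omega
  · left; omega

lemma xiU_neg (s : ℕ → ℤ) (x : ℤ) (n : ℕ) : xiU (fun n => - s n) x n = xiD s (-x) n := by
  unfold xiU xiD
  congr 1
  apply Finset.filter_congr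
  intro k _
  simp only
  omega

lemma xiD_neg (s : ℕ → ℤ) (x : ℤ) (n : ℕ) : xiD (fun n => - s n) x n = xiU s (-x) n := by
  unfold xiU xiD
  congr 1
  apply Finset.filter_congr
  intro k _
  simp only
  omega

lemma xiS_neg (s : ℕ → ℤ) (x : ℤ) (n : ℕ) : xiS (fun n => - s n) x n = xiS s (-x) n := by
  unfold xiS; rw [xiU_neg, xiD_neg, max_comm]

lemma Mx_neg (s : ℕ → ℤ) (n : ℕ) : Mx (fun n => - s n) n = Mx s n := by
  induction n with
  | zero => rfl
  | succ n ih => simp only [Mx]; rw [ih, xiS_neg, neg_neg]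

lemma fav_neg (s : ℕ → ℤ) (n : ℕ) : (fav (fun n => - s n) n).ncard = (fav s n).ncard := by
  have : fav (fun n => - s n) n = (fun x => -x) '' fav s n := by
    ext x
    rw [mem_fav, xiS_neg, Mx_neg, Set.mem_image]
    constructor
    · intro h; exact ⟨-x, (mem_fav s (-x) n).2 h, neg_neg x⟩
    · rintro ⟨y, hy, rfl⟩
      rw [neg_neg]; exact (mem_fav s y n).1 hy
  rw [this, Set.ncard_image_of_injective _ neg_injective]

lemma adjN_neg {s : ℕ → ℤ} {n : ℕ} (h : AdjN s n) : AdjP (fun n => - s n) n := by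
  obtain ⟨h1, h2, h3, h4⟩ := h
  refine ⟨?_, by simp only; omega, by simp only; omega, ?_⟩
  · unfold Rec at *; rw [Mx_neg, Mx_neg]; exact h1
  · rw [Mx_neg, xiU_neg, neg_neg]; exact h4

lemma patternN {s : ℕ → ℤ} (hs : NN s) {n : ℕ} (h : AdjN s n) (h1 : s (n + 2) = s (n + 1) + 1)
    (h2 : s (n + 3) = s (n + 2) + 1) (h3 : s (n + 4) = s (n + 3) - 1)
    (h4 : s (n + 5) = s (n + 4) + 1) : (fav s (n + 5)).ncard = 3 := by
  rw [← fav_neg]
  exact patternP (nn_neg hs) (adjN_neg h) (by omega) (by omega)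
    (by omega) (by omega)

lemma exists_rec {s : ℕ → ℤ} (hM : ∀ m, ∃ n, m ≤ Mx s n) (N : ℕ) : ∃ r, N ≤ r ∧ Rec s r := by
  by_contra hno
  push Not at hno
  have hconst : ∀ n, N ≤ n → Mx s n = Mx s N := by
    intro n hn
    induction n, hn using Nat.le_induction with
    | base => rfl
    | succ n hn ih => rw [not_rec (hno n hn), ih]
  obtain ⟨n, hn⟩ := hM (Mx s N + 1)
  rcases le_total N n with h | h
  · rw [hconst n h] at hn; omega
  · have := Mx_mono s h
    omega

lemma eventually_const {s : ℕ → ℤ} (hs : NN s) {N : ℕ} (h3 : ∀ n, N ≤ n → (fav s n).ncard ≠ 3)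
    (hP : ∀ n, N ≤ n → ¬ AdjP s n) (hN : ∀ n, N ≤ n → ¬ AdjN s n)
    (hM : ∀ m, ∃ n, m ≤ Mx s n) : ∃ b : ℤ, ∃ n0, ∀ n, n0 ≤ n →
      (0 < b ∧ xiU s b n = Mx s n) ∨ (b < 0 ∧ xiD s b n = Mx s n) := by
  obtain ⟨r0, hr0, hrec0⟩ := exists_rec hM N
  refine ⟨s (r0 + 1), r0 + 1, ?_⟩
  set b := s (r0 + 1) with hb
  have key : ∀ n, r0 + 1 ≤ n → ∃ r, r0 ≤ r ∧ r + 1 ≤ n ∧ Rec s r ∧
      (∀ k, r + 1 ≤ k → k < n → ¬ Rec s k) ∧ s (r + 1) = b ∧
      ((0 < b ∧ xiU s b n = Mx s n) ∨ (b < 0 ∧ xiD s b n = Mx s n)) := by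
    intro n hn
    induction n, hn using Nat.le_induction with
    | base =>
      refine ⟨r0, le_rfl, le_rfl, hrec0, fun k h1 h2 => by omega, rfl, ?_⟩
      rcases rec_outward hs hrec0 with ⟨h1, h2, h4⟩ | ⟨h1, h2, h4⟩
      · left; exact ⟨by omega, h4⟩
      · right; exact ⟨by omega, h4⟩
    | succ n hn ih =>
      obtain ⟨r, hr1, hr2, hr, hno, hsb, hI⟩ := ih
      by_cases hrn : Rec s n
      · rcases two_records hs hr hrn hr2 hno with h1 | h1 | ⟨k, k1, k2, k3⟩
        · refine ⟨n, by omega, le_rfl, hrn, fun k h1 h2 => by omega, by rw [← h1, hsb], ?_⟩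
          rcases rec_outward hs hrn with ⟨h4, h5, h6⟩ | ⟨h4, h5, h6⟩
          · left
            rw [← h1, hsb] at h6
            exact ⟨by omega, h6⟩
          · right
            rw [← h1, hsb] at h6
            exact ⟨by omega, h6⟩
        · exfalso
          have hsn : s n = b := by rw [← h1, hsb]
          have hMn : Mx s (n + 1) = Mx s n + 1 := hrn
          rcases rec_outward hs hrn with ⟨h4, h5, h6⟩ | ⟨h4, h5, h6⟩
          · apply hP n (by omega)
            refine ⟨hrn, h4, ?_, ?_⟩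
            · rcases hI with hI | hI <;> omega
            · rw [hsn, xiU_same s b n (Or.inl (by omega))]
              rcases hI with hI | hI <;> omega
          · apply hN n (by omega)
            refine ⟨hrn, h4, ?_, ?_⟩
            · rcases hI with hI | hI <;> omega
            · rw [hsn, xiD_same s b n (Or.inl (by omega))]
              rcases hI with hI | hI <;> omega
        · exact absurd k3 (h3 k (by omega))
      · have hMn := not_rec hrn
        refine ⟨r, hr1, by omega, hr, ?_, hsb, ?_⟩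
        · intro k h1 h2
          by_cases hk : k = n
          · rw [hk]; exact hrn
          · exact hno k h1 (by omega)
        · have u1 := xiU_le_succ s b n
          have u2 := xiD_le_succ s b n
          have u3 : xiU s b (n + 1) ≤ Mx s (n + 1) := (le_max_left _ _).trans (xiS_le_Mx s b _)
          have u4 : xiD s b (n + 1) ≤ Mx s (n + 1) := (le_max_right _ _).trans (xiS_le_Mx s b _)
          rcases hI with hI | hI
          · left; omega
          · right; omega
  intro n hn
  obtain ⟨r, _, _, _, _, _, hI⟩ := key n hn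
  exact hI

/-- The walk restricted to its steps from `b`. -/
def Wb (s : ℕ → ℤ) (b : ℤ) (n : ℕ) : ℤ := ∑ k ∈ range n, if s k = b then s (k + 1) - s k else 0

lemma Wb_succ (s : ℕ → ℤ) (b : ℤ) (n : ℕ) :
    Wb s b (n + 1) = Wb s b n + (if s n = b then s (n + 1) - s n else 0) := by
  unfold Wb; rw [sum_range_succ]

lemma Wb_eq {s : ℕ → ℤ} (hs : NN s) (b : ℤ) (n : ℕ) :
    Wb s b n = (xiU s (b + 1) n : ℤ) - xiD s (b - 1) n := by
  induction n with
  | zero => simp [Wb, xiU_zero, xiD_zero]
  | succ n ih =>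
    rw [Wb_succ, ih, xiU_succ, xiD_succ]
    push_cast
    rcases hs.step n with h | h <;> split_ifs <;> omega

lemma final_det {s : ℕ → ℤ} (hs : NN s) (hM : ∀ m, ∃ n, m ≤ Mx s n)
    (hW : ∀ b : ℤ, ((∃ c : ℤ, ∀ n, Wb s b n ≤ c) ∨ (∃ c : ℤ, ∀ n, c ≤ Wb s b n)) →
      ∃ n0, ∀ n, n0 ≤ n → s n ≠ b)
    (hP : (∃ᶠ n in atTop, AdjP s n) → ∃ᶠ n in atTop, (fav s n).ncard = 3)
    (hN : (∃ᶠ n in atTop, AdjN s n) → ∃ᶠ n in atTop, (fav s n).ncard = 3) :
    ∃ᶠ n in atTop, (fav s n).ncard = 3 := by
  by_contra hcon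
  have hP' : ¬ ∃ᶠ n in atTop, AdjP s n := fun h => hcon (hP h)
  have hN' : ¬ ∃ᶠ n in atTop, AdjN s n := fun h => hcon (hN h)
  rw [not_frequently, eventually_atTop] at hcon hP' hN'
  obtain ⟨N1, h1⟩ := hcon
  obtain ⟨N2, h2⟩ := hP'
  obtain ⟨N3, h3⟩ := hN'
  obtain ⟨b, n0, hb⟩ := eventually_const hs (N := max N1 (max N2 N3))
    (fun n hn => h1 n (by omega)) (fun n hn => h2 n (by omega)) (fun n hn => h3 n (by omega)) hM
  -- bound on Wb for large n
  have hbd : (∀ n, n0 ≤ n → Wb s b n ≤ 1) ∨ (∀ n, n0 ≤ n → -1 ≤ Wb s b n) := by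
    rcases hb n0 le_rfl with hb0 | hb0
    · left
      intro n hn
      rcases hb n hn with h | h
      · rw [Wb_eq hs]
        have f := flow hs (b - 1) n
        rw [sub_add_cancel] at f
        have u : xiU s (b + 1) n ≤ Mx s n := (le_max_left _ _).trans (xiS_le_Mx s _ n)
        split_ifs at f <;> omega
      · omega
    · right
      intro n hn
      rcases hb n hn with h | h
      · omega
      · rw [Wb_eq hs]
        have f := flow hs b n
        have u : xiD s (b - 1) n ≤ Mx s n := (le_max_right _ _).trans (xiS_le_Mx s _ n)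
        split_ifs at f <;> omega
  have habs : ∀ n, |Wb s b n| ≤ n := by
    intro n
    induction n with
    | zero => simp [Wb]
    | succ n ih =>
      rw [Wb_succ]
      push_cast
      rw [abs_le] at ih ⊢
      rcases hs.step n with h | h <;> split_ifs <;> omega
  have hfin := hW b (by
    rcases hbd with h | h
    · left
      refine ⟨n0 + 1, fun n => ?_⟩
      rcases le_total n0 n with h' | h'
      · have := h n h'; omega
      · have := habs n; rw [abs_le] at this; omega
    · right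
      refine ⟨-(n0 + 1), fun n => ?_⟩
      rcases le_total n0 n with h' | h'
      · have := h n h'; omega
      · have := habs n; rw [abs_le] at this; omega)
  obtain ⟨n1, hn1⟩ := hfin
  -- the counts at b are eventually constant
  have hc : ∀ n, n1 ≤ n → xiU s b n = xiU s b n1 ∧ xiD s b n = xiD s b n1 := by
    intro n hn
    induction n, hn using Nat.le_induction with
    | base => exact ⟨rfl, rfl⟩
    | succ n hn ih =>
      rw [xiU_same s b n (Or.inl (hn1 (n + 1) (by omega))),
        xiD_same s b n (Or.inl (hn1 (n + 1) (by omega)))]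
      exact ih
  obtain ⟨n2, hn2⟩ := hM (max (xiU s b n1) (xiD s b n1) + 1)
  have h5 := Mx_mono s (show n2 ≤ max n2 (max n0 n1) by omega)
  have h6 := hc (max n2 (max n0 n1)) (by omega)
  rcases hb (max n2 (max n0 n1)) (by omega) with h | h <;> omega

end Pool.Agent.H75.Fav
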