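import Mathlib
import Pool.Agent.H75.Fav.Path2

set_option autoImplicit false
set_option linter.unusedSectionVars false
open Finset Filter MeasureTheory ProbabilityTheory Topology

/-! The simple random walk: filtration, conditional Borel-Cantelli, martingales. -/

namespace Pool.Agent.H75.Fav

variable {Ω : Type*} [m0 : MeasurableSpace Ω] {μ : Measure Ω} [IsProbabilityMeasure μ]
  {X : ℕ → Ω → ℤ}

/-- The walk. -/
def SS (X : ℕ → Ω → ℤ) (ω : Ω) (n : ℕ) : ℤ := ∑ k ∈ range n, X k ω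

/-- Sigma-algebra generated by one step. -/
@[reducible] def sm (X : ℕ → Ω → ℤ) (i : ℕ) : MeasurableSpace Ω := MeasurableSpace.comap (X i) inferInstance

/-- The filtration of the past. -/
def FF (hm : ∀ n, Measurable (X n)) : Filtration ℕ m0 where
  seq n := ⨆ i ∈ Set.Iio n, sm X i
  mono' := by
    intro a b hab
    exact biSup_mono (fun i hi => lt_of_lt_of_le hi hab)
  le' := by
    intro n
    exact iSup₂_le fun i _ => (hm i).comap_le

lemma meas_X (hm : ∀ n, Measurable (X n)) {i n : ℕ} (h : i < n) :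
    Measurable[FF hm n] (X i) := by
  have h1 : sm X i ≤ FF hm n := by
    show sm X i ≤ ⨆ j ∈ Set.Iio n, sm X j
    exact le_biSup (sm X) (show i ∈ Set.Iio n from h)
  have h2 : Measurable[sm X i] (X i) := comap_measurable (X i)
  exact h2.mono h1 le_rfl

/-- The prefix of the steps. -/
def pre (X : ℕ → Ω → ℤ) (n : ℕ) (ω : Ω) : Fin n → ℤ := fun i => X i ω

lemma meas_pre (hm : ∀ n, Measurable (X n)) (n : ℕ) : Measurable[FF hm n] (pre X n) := by
  refine @measurable_pi_lambda _ _ _ (FF hm n) _ _ (fun i => ?_)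
  exact meas_X hm i.isLt

lemma meas_of_pre (hm : ∀ n, Measurable (X n)) (n : ℕ) (B : Set (Fin n → ℤ)) :
    MeasurableSet[FF hm n] (pre X n ⁻¹' B) :=
  meas_pre hm n (Set.to_countable B).measurableSet

/-- The path with a given prefix. -/
def path (n : ℕ) (p : Fin n → ℤ) (k : ℕ) : ℤ :=
  ∑ j ∈ range k, if h : j < n then p ⟨j, h⟩ else 0

lemma path_pre (n : ℕ) (ω : Ω) {k : ℕ} (hk : k ≤ n) : path n (pre X n ω) k = SS X ω k := by
  unfold path SS pre
  apply Finset.sum_congr rfl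
  intro j hj
  rw [mem_range] at hj
  rw [dif_pos (by omega)]

/-- A property of paths determined by the first `n` steps. -/
def Dep (n : ℕ) (P : (ℕ → ℤ) → Prop) : Prop :=
  ∀ s s' : ℕ → ℤ, (∀ k, k ≤ n → s k = s' k) → (P s ↔ P s')

lemma meas_dep (hm : ∀ n, Measurable (X n)) {n : ℕ} {P : (ℕ → ℤ) → Prop} (hP : Dep n P) :
    MeasurableSet[FF hm n] {ω | P (SS X ω)} := by
  have : {ω | P (SS X ω)} = pre X n ⁻¹' {p | P (path n p)} := by
    ext ω
    simp only [Set.mem_ofPred_eq, Set.mem_preimage]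
    exact hP _ _ (fun k hk => (path_pre n ω hk).symm)
  rw [this]
  exact meas_of_pre hm n _

lemma indep_FF (hm : ∀ n, Measurable (X n)) (hi : iIndepFun X μ) (n : ℕ) :
    Indep (sm X n) (FF hm n) μ := by
  have h1 : iIndep (sm X) μ := hi
  have h2 := indep_iSup_of_disjoint (μ := μ) (m := sm X) (fun i => (hm i).comap_le) h1
    (S := {n}) (T := Set.Iio n) (by simp)
  have h3 : (⨆ i ∈ ({n} : Set ℕ), sm X i) = sm X n := by simp
  rw [h3] at h2
  exact h2

lemma cond_half (hm : ∀ n, Measurable (X n)) (hi : iIndepFun X μ) (c : ℤ) (k : ℕ)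
    (hc : μ {ω | X k ω = c} = 1 / 2) (A : Set Ω) (hA : MeasurableSet[FF hm k] A) :
    μ[(A ∩ {ω | X k ω = c}).indicator (1 : Ω → ℝ) | FF hm k] =ᵐ[μ]
      A.indicator (fun _ => (1 / 2 : ℝ)) := by
  set C : Set Ω := {ω | X k ω = c} with hCdef
  have hCm : MeasurableSet[sm X k] C := ⟨{c}, measurableSet_singleton c, rfl⟩
  have hC : MeasurableSet C := (hm k).comap_le _ hCm
  have e1 : (A ∩ C).indicator (1 : Ω → ℝ) = A.indicator (C.indicator 1) := by
    rw [Set.indicator_indicator]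
  have hint : Integrable (C.indicator (1 : Ω → ℝ)) μ :=
    (integrable_const (1 : ℝ)).indicator hC
  have h1 := condExp_indicator (μ := μ) (m := FF hm k) hint hA
  have hs : StronglyMeasurable[sm X k] (C.indicator (1 : Ω → ℝ)) :=
    (@stronglyMeasurable_one _ _ (sm X k) _ _).indicator hCm
  have h2 := condExp_indep_eq (μ := μ) (f := C.indicator (1 : Ω → ℝ)) (hm k).comap_le
    ((FF hm).le k) hs (indep_FF hm hi k)
  have h3 : ∫ ω, C.indicator (1 : Ω → ℝ) ω ∂μ = 1 / 2 := by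
    rw [integral_indicator_one hC]
    unfold Measure.real
    rw [hc]
    norm_num
  rw [e1]
  refine h1.trans ?_
  filter_upwards [h2] with ω hω
  by_cases hωA : ω ∈ A
  · rw [Set.indicator_of_mem hωA, Set.indicator_of_mem hωA, hω, h3]
  · rw [Set.indicator_of_notMem hωA, Set.indicator_of_notMem hωA]

/-- Conditional Borel-Cantelli for one more step. -/
lemma one_step0 (hm : ∀ n, Measurable (X n)) (hi : iIndepFun X μ) (c : ℤ)
    (hc : ∀ n, μ {ω | X n ω = c} = 1 / 2) (A : ℕ → Set Ω)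
    (hA : ∀ n, MeasurableSet[FF hm n] (A n)) :
    ∀ᵐ ω ∂μ, (∃ᶠ n in atTop, ω ∈ A n) → ∃ᶠ n in atTop, ω ∈ A n ∧ X n ω = c := by
  let C : ℕ → Set Ω := fun n => {ω | X n ω = c}
  let B : ℕ → Set Ω := fun n => Nat.casesOn n ∅ (fun k => A k ∩ C k)
  have hCm : ∀ n, MeasurableSet[sm X n] (C n) := fun n =>
    ⟨{c}, measurableSet_singleton c, rfl⟩
  have hC : ∀ n, MeasurableSet (C n) := fun n => (hm n).comap_le _ (hCm n)
  have hBm : ∀ n, MeasurableSet[FF hm n] (B n) := by
    intro n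
    cases n with
    | zero => exact @MeasurableSet.empty _ (FF hm 0)
    | succ k =>
      have h1 : MeasurableSet[FF hm (k + 1)] (A k) := (FF hm).mono (Nat.le_succ k) _ (hA k)
      have h2 : MeasurableSet[FF hm (k + 1)] (C k) := by
        have h3 : sm X k ≤ FF hm (k + 1) := by
          show sm X k ≤ ⨆ j ∈ Set.Iio (k + 1), sm X j
          exact le_biSup (sm X) (show k ∈ Set.Iio (k + 1) from Nat.lt_succ_self k)
        exact h3 _ (hCm k)
      exact h1.inter h2
  have hlevy := ae_mem_limsup_atTop_iff (ℱ := FF hm) μ hBm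
  have hcond : ∀ k, μ[(B (k + 1)).indicator (1 : Ω → ℝ) | FF hm k] =ᵐ[μ]
      (A k).indicator (fun _ => (1 / 2 : ℝ)) := by
    intro k
    exact cond_half hm hi c k (hc k) (A k) (hA k)
  have hcond' : ∀ᵐ ω ∂μ, ∀ k, (μ[(B (k + 1)).indicator (1 : Ω → ℝ) | FF hm k]) ω =
      (A k).indicator (fun _ => (1 / 2 : ℝ)) ω := ae_all_iff.2 hcond
  filter_upwards [hlevy, hcond'] with ω h1 h2 hfreq
  have h3 : Tendsto (fun n => ∑ k ∈ range n, (A k).indicator (fun _ => (1 / 2 : ℝ)) ω)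
      atTop atTop := by
    have h5 := Set.limsup_eq_tendsto_sum_indicator_atTop (show (0 : ℝ) < 1 / 2 by norm_num) A
    have h6 : ω ∈ limsup A atTop := mem_limsup_iff_frequently_mem.2 hfreq
    rw [h5] at h6
    exact h6
  have h4 : ω ∈ limsup B atTop := by
    rw [h1]
    simp only [h2]
    exact h3
  rw [mem_limsup_iff_frequently_mem] at h4
  rw [frequently_atTop] at h4 ⊢
  intro a
  obtain ⟨b, hb, hb'⟩ := h4 (a + 1)
  obtain ⟨k, rfl⟩ : ∃ k, b = k + 1 := ⟨b - 1, by omega⟩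
  exact ⟨k, by omega, hb'⟩

/-- The same with a delay. -/
lemma one_step (hm : ∀ n, Measurable (X n)) (hi : iIndepFun X μ) (c : ℤ)
    (hc : ∀ n, μ {ω | X n ω = c} = 1 / 2) (j : ℕ) (A : ℕ → Set Ω)
    (hA : ∀ n, MeasurableSet[FF hm (n + j)] (A n)) :
    ∀ᵐ ω ∂μ, (∃ᶠ n in atTop, ω ∈ A n) → ∃ᶠ n in atTop, ω ∈ A n ∧ X (n + j) ω = c := by
  let A' : ℕ → Set Ω := fun m => if j ≤ m then A (m - j) else ∅
  have hA' : ∀ m, MeasurableSet[FF hm m] (A' m) := by
    intro m
    by_cases h : j ≤ m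
    · have h1 := hA (m - j)
      rw [Nat.sub_add_cancel h] at h1
      simp only [A', if_pos h]
      exact h1
    · simp only [A', if_neg h]
      exact @MeasurableSet.empty _ (FF hm m)
  filter_upwards [one_step0 hm hi c hc A' hA'] with ω h1 h2
  have h3 : ∃ᶠ n in atTop, ω ∈ A' n := by
    rw [frequently_atTop] at h2 ⊢
    intro a
    obtain ⟨b, hb, hb'⟩ := h2 a
    refine ⟨b + j, by omega, ?_⟩
    simp only [A', if_pos (Nat.le_add_left j b), Nat.add_sub_cancel]
    exact hb'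
  have h4 := h1 h3
  rw [frequently_atTop] at h4 ⊢
  intro a
  obtain ⟨b, hb, hb', hb''⟩ := h4 (a + j)
  have hj : j ≤ b := by omega
  simp only [A', if_pos hj] at hb'
  refine ⟨b - j, by omega, hb', ?_⟩
  rw [Nat.sub_add_cancel hj]
  exact hb''

lemma meas_step (hm : ∀ n, Measurable (X n)) {i n : ℕ} (h : i < n) (c : ℤ) :
    MeasurableSet[FF hm n] {ω | X i ω = c} :=
  meas_X hm h (measurableSet_singleton c)

/-- Alternating steps. -/
lemma alternating (hm : ∀ n, Measurable (X n)) (hi : iIndepFun X μ)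
    (h1 : ∀ n, μ {ω | X n ω = 1} = 1 / 2) (h2 : ∀ n, μ {ω | X n ω = -1} = 1 / 2) (m : ℕ) :
    ∀ᵐ ω ∂μ, ∃ᶠ n in atTop, ∀ i < m, X (n + i) ω = if i % 2 = 0 then 1 else -1 := by
  induction m with
  | zero =>
    refine Eventually.of_forall fun ω => ?_
    refine Frequently.of_forall fun n i hi => ?_
    omega
  | succ m ih =>
    have hA : ∀ n, MeasurableSet[FF hm (n + m)]
        {ω | ∀ i < m, X (n + i) ω = if i % 2 = 0 then 1 else -1} := by
      intro n
      have : {ω | ∀ i < m, X (n + i) ω = if i % 2 = 0 then 1 else -1} =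
          ⋂ i ∈ range m, {ω | X (n + i) ω = if i % 2 = 0 then 1 else -1} := by
        ext ω; simp
      rw [this]
      refine @Finset.measurableSet_biInter _ _ (FF hm (n + m)) _ _ (fun i hi' => ?_)
      exact meas_step hm (by rw [mem_range] at hi'; omega) _
    have hc : ∀ n, μ {ω | X n ω = if m % 2 = 0 then 1 else -1} = 1 / 2 := by
      intro n
      split_ifs
      · exact h1 n
      · exact h2 n
    filter_upwards [ih, one_step hm hi _ hc m _ hA] with ω h3 h4
    refine (h4 h3).mono ?_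
    rintro n ⟨h5, h6⟩ i hi'
    rcases Nat.lt_succ_iff_lt_or_eq.1 hi' with h7 | h7
    · exact h5 i h7
    · rw [h7]; exact h6

lemma SS_succ (X : ℕ → Ω → ℤ) (ω : Ω) (n : ℕ) : SS X ω (n + 1) = SS X ω n + X n ω := by
  unfold SS; rw [sum_range_succ]

lemma SS_zero (X : ℕ → Ω → ℤ) (ω : Ω) : SS X ω 0 = 0 := by simp [SS]

lemma ae_pm (hm : ∀ n, Measurable (X n))
    (h1 : ∀ n, μ {ω | X n ω = 1} = 1 / 2) (h2 : ∀ n, μ {ω | X n ω = -1} = 1 / 2) :
    ∀ᵐ ω ∂μ, ∀ n, X n ω = 1 ∨ X n ω = -1 := by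
  rw [ae_all_iff]
  intro n
  have hm1 : MeasurableSet {ω | X n ω = 1} := hm n (measurableSet_singleton 1)
  have hm2 : MeasurableSet {ω | X n ω = -1} := hm n (measurableSet_singleton (-1))
  have hd : Disjoint {ω | X n ω = 1} {ω | X n ω = -1} := by
    rw [Set.disjoint_left]
    intro ω h3 h4
    simp only [Set.mem_ofPred_eq] at h3 h4
    omega
  have hu : μ ({ω | X n ω = 1} ∪ {ω | X n ω = -1}) = 1 := by
    rw [measure_union hd hm2, h1, h2]
    exact ENNReal.add_halves 1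
  have := (prob_compl_eq_zero_iff (hm1.union hm2)).2 hu
  rw [ae_iff]
  refine measure_mono_null ?_ this
  intro ω hω
  simp only [Set.mem_ofPred_eq] at hω
  simp only [Set.mem_compl_iff, Set.mem_union, Set.mem_ofPred_eq]
  exact hω

lemma ae_NN (hm : ∀ n, Measurable (X n))
    (h1 : ∀ n, μ {ω | X n ω = 1} = 1 / 2) (h2 : ∀ n, μ {ω | X n ω = -1} = 1 / 2) :
    ∀ᵐ ω ∂μ, NN (SS X ω) := by
  filter_upwards [ae_pm hm h1 h2] with ω h
  refine ⟨SS_zero X ω, fun n => ?_⟩
  rw [SS_succ]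
  rcases h n with h3 | h3 <;> rw [h3]
  · left; rfl
  · right; ring

/-- The maximum is unbounded. -/
lemma ae_unbounded (hm : ∀ n, Measurable (X n)) (hi : iIndepFun X μ)
    (h1 : ∀ n, μ {ω | X n ω = 1} = 1 / 2) (h2 : ∀ n, μ {ω | X n ω = -1} = 1 / 2) :
    ∀ᵐ ω ∂μ, ∀ m, ∃ n, m ≤ Mx (SS X ω) n := by
  rw [ae_all_iff]
  intro m
  filter_upwards [alternating hm hi h1 h2 (2 * m)] with ω h
  obtain ⟨n, hn⟩ := h.exists
  refine ⟨n + 2 * m, ?_⟩
  set x := SS X ω n with hx
  have key : ∀ i, i ≤ m → SS X ω (n + 2 * i) = x ∧ i ≤ xiU (SS X ω) (x + 1) (n + 2 * i) := by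
    intro i
    induction i with
    | zero => intro _; exact ⟨rfl, Nat.zero_le _⟩
    | succ i ih =>
      intro hi'
      obtain ⟨e1, e2⟩ := ih (by omega)
      have s1 := hn (2 * i) (by omega)
      have s2 := hn (2 * i + 1) (by omega)
      rw [if_pos (by omega)] at s1
      rw [if_neg (by omega)] at s2
      have p1 : SS X ω (n + 2 * i + 1) = x + 1 := by rw [SS_succ, e1, s1]
      have p2 : SS X ω (n + 2 * i + 1 + 1) = x := by
        rw [SS_succ, p1, show n + 2 * i + 1 = n + (2 * i + 1) by ring, s2]; ring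
      have e3 : n + 2 * (i + 1) = n + 2 * i + 1 + 1 := by ring
      refine ⟨by rw [e3]; exact p2, ?_⟩
      rw [e3]
      have u1 := xiU_succ (SS X ω) (x + 1) (n + 2 * i)
      rw [if_pos ⟨by rw [e1]; ring, p1⟩] at u1
      have u2 := xiU_le_succ (SS X ω) (x + 1) (n + 2 * i + 1)
      omega
  have h3 := (key m le_rfl).2
  exact h3.trans ((le_max_left _ _).trans (xiS_le_Mx _ _ _))

end Pool.Agent.H75.Fav
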