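import Mathlib
import Pool.Agent.H75.Fav.Walk

set_option autoImplicit false
set_option linter.unusedSectionVars false
open Finset Filter MeasureTheory ProbabilityTheory Topology

/-! The martingale argument and the final theorem. -/

namespace Pool.Agent.H75.Fav

variable {Ω : Type*} [m0 : MeasurableSpace Ω] {μ : Measure Ω} [IsProbabilityMeasure μ]
  {X : ℕ → Ω → ℤ}

lemma xiU_congr {s s' : ℕ → ℤ} {n : ℕ} (h : ∀ k, k ≤ n → s k = s' k) (x : ℤ) :
    xiU s x n = xiU s' x n := by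
  unfold xiU
  congr 1
  apply Finset.filter_congr
  intro k hk
  rw [mem_range] at hk
  rw [h k (by omega), h (k + 1) (by omega)]

lemma xiD_congr {s s' : ℕ → ℤ} {n : ℕ} (h : ∀ k, k ≤ n → s k = s' k) (x : ℤ) :
    xiD s x n = xiD s' x n := by
  unfold xiD
  congr 1
  apply Finset.filter_congr
  intro k hk
  rw [mem_range] at hk
  rw [h k (by omega), h (k + 1) (by omega)]

lemma Mx_congr {s s' : ℕ → ℤ} {n : ℕ} (h : ∀ k, k ≤ n → s k = s' k) : Mx s n = Mx s' n := by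
  induction n with
  | zero => rfl
  | succ n ih =>
    simp only [Mx]
    rw [ih (fun k hk => h k (by omega))]
    unfold xiS
    rw [xiU_congr h, xiD_congr h, h (n + 1) le_rfl]

lemma dep_AdjP (n : ℕ) : Dep (n + 1) (fun s => AdjP s n) := by
  intro s s' h
  show AdjP s n ↔ AdjP s' n
  unfold AdjP Rec
  rw [Mx_congr h, Mx_congr (fun k hk => h k (by omega) : ∀ k, k ≤ n → s k = s' k),
    h (n + 1) le_rfl, h n (by omega), xiU_congr h]

lemma dep_AdjN (n : ℕ) : Dep (n + 1) (fun s => AdjN s n) := by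
  intro s s' h
  show AdjN s n ↔ AdjN s' n
  unfold AdjN Rec
  rw [Mx_congr h, Mx_congr (fun k hk => h k (by omega) : ∀ k, k ≤ n → s k = s' k),
    h (n + 1) le_rfl, h n (by omega), xiD_congr h]

lemma four_steps (hm : ∀ n, Measurable (X n)) (hi : iIndepFun X μ) (A : ℕ → Set Ω)
    (hA : ∀ n, MeasurableSet[FF hm (n + 1)] (A n)) (c1 c2 c3 c4 : ℤ)
    (h1 : ∀ n, μ {ω | X n ω = c1} = 1 / 2) (h2 : ∀ n, μ {ω | X n ω = c2} = 1 / 2)
    (h3 : ∀ n, μ {ω | X n ω = c3} = 1 / 2) (h4 : ∀ n, μ {ω | X n ω = c4} = 1 / 2) :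
    ∀ᵐ ω ∂μ, (∃ᶠ n in atTop, ω ∈ A n) → ∃ᶠ n in atTop, ω ∈ A n ∧ X (n + 1) ω = c1 ∧
      X (n + 2) ω = c2 ∧ X (n + 3) ω = c3 ∧ X (n + 4) ω = c4 := by
  let A1 : ℕ → Set Ω := fun n => A n ∩ {ω | X (n + 1) ω = c1}
  let A2 : ℕ → Set Ω := fun n => A1 n ∩ {ω | X (n + 2) ω = c2}
  let A3 : ℕ → Set Ω := fun n => A2 n ∩ {ω | X (n + 3) ω = c3}
  have m1 : ∀ n, MeasurableSet[FF hm (n + 2)] (A1 n) := fun n =>
    ((FF hm).mono (show n + 1 ≤ n + 2 by omega) _ (hA n)).inter (meas_step hm (by omega) _)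
  have m2 : ∀ n, MeasurableSet[FF hm (n + 3)] (A2 n) := fun n =>
    ((FF hm).mono (show n + 2 ≤ n + 3 by omega) _ (m1 n)).inter (meas_step hm (by omega) _)
  have m3 : ∀ n, MeasurableSet[FF hm (n + 4)] (A3 n) := fun n =>
    ((FF hm).mono (show n + 3 ≤ n + 4 by omega) _ (m2 n)).inter (meas_step hm (by omega) _)
  filter_upwards [one_step hm hi c1 h1 1 A hA, one_step hm hi c2 h2 2 A1 m1,
    one_step hm hi c3 h3 3 A2 m2, one_step hm hi c4 h4 4 A3 m3] with ω s1 s2 s3 s4 hf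
  refine (s4 (s3 (s2 (s1 hf)))).mono ?_
  rintro n ⟨⟨⟨⟨g1, g2⟩, g3⟩, g4⟩, g5⟩
  exact ⟨g1, g2, g3, g4, g5⟩

/-- The martingale. -/
noncomputable def ff (X : ℕ → Ω → ℤ) (b : ℤ) (n : ℕ) (ω : Ω) : ℝ := (Wb (SS X ω) b n : ℝ)

lemma ff_meas (hm : ∀ n, Measurable (X n)) (b : ℤ) (n : ℕ) : Measurable[FF hm n] (ff X b n) := by
  have : ff X b n = (fun p : Fin n → ℤ => (Wb (path n p) b n : ℝ)) ∘ pre X n := by
    funext ω
    unfold ff
    simp only [Function.comp_apply]
    congr 1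
    unfold Wb
    apply Finset.sum_congr rfl
    intro k hk
    rw [mem_range] at hk
    rw [path_pre n ω (by omega : k ≤ n), path_pre n ω (by omega : k + 1 ≤ n)]
  rw [this]
  exact (measurable_of_countable _).comp (meas_pre hm n)

lemma Wb_abs {s : ℕ → ℤ} (hs : NN s) (b : ℤ) (n : ℕ) : |Wb s b n| ≤ n := by
  induction n with
  | zero => simp [Wb]
  | succ n ih =>
    rw [Wb_succ]
    push_cast
    rw [abs_le] at ih ⊢
    rcases hs.step n with h | h <;> split_ifs <;> omega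

lemma ff_int (hm : ∀ n, Measurable (X n))
    (h1 : ∀ n, μ {ω | X n ω = 1} = 1 / 2) (h2 : ∀ n, μ {ω | X n ω = -1} = 1 / 2)
    (b : ℤ) (n : ℕ) : Integrable (ff X b n) μ := by
  refine Integrable.of_bound ((ff_meas hm b n).mono ((FF hm).le n) le_rfl).aestronglyMeasurable
    (n : ℝ) ?_
  filter_upwards [ae_NN hm h1 h2] with ω hω
  have := Wb_abs hω b n
  unfold ff
  rw [Real.norm_eq_abs]
  exact_mod_cast this

lemma dep_site (n : ℕ) (b : ℤ) : Dep n (fun s => s n = b) := by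
  intro s s' h
  show s n = b ↔ s' n = b
  rw [h n le_rfl]

lemma ff_martingale (hm : ∀ n, Measurable (X n)) (hi : iIndepFun X μ)
    (h1 : ∀ n, μ {ω | X n ω = 1} = 1 / 2) (h2 : ∀ n, μ {ω | X n ω = -1} = 1 / 2) (b : ℤ) :
    Martingale (ff X b) (FF hm) μ := by
  refine martingale_nat (fun n => (ff_meas hm b n).stronglyMeasurable)
    (fun n => ff_int hm h1 h2 b n) ?_
  intro n
  set A : Set Ω := {ω | SS X ω n = b} with hAdef
  have hA : MeasurableSet[FF hm n] A := meas_dep hm (dep_site n b)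
  have hA' : MeasurableSet A := (FF hm).le n _ hA
  have hC1 : MeasurableSet {ω | X n ω = 1} := hm n (measurableSet_singleton 1)
  have hC2 : MeasurableSet {ω | X n ω = -1} := hm n (measurableSet_singleton (-1))
  set g1 : Ω → ℝ := (A ∩ {ω | X n ω = 1}).indicator 1 with hg1
  set g2 : Ω → ℝ := (A ∩ {ω | X n ω = -1}).indicator 1 with hg2
  have i1 : Integrable g1 μ := (integrable_const (1 : ℝ)).indicator (hA'.inter hC1)
  have i2 : Integrable g2 μ := (integrable_const (1 : ℝ)).indicator (hA'.inter hC2)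
  have e1 : ff X b (n + 1) =ᵐ[μ] ff X b n + (g1 - g2) := by
    filter_upwards [ae_pm hm h1 h2] with ω hω
    simp only [Pi.add_apply, Pi.sub_apply]
    unfold ff
    rw [Wb_succ, SS_succ]
    by_cases hωA : ω ∈ A
    · have hωA' : SS X ω n = b := hωA
      rw [if_pos hωA']
      rcases hω n with h3 | h3
      · have m1 : ω ∈ A ∩ {ω | X n ω = 1} := ⟨hωA, h3⟩
        have m2 : ω ∉ A ∩ {ω | X n ω = -1} := by
          rintro ⟨_, h4⟩
          simp only [Set.mem_ofPred_eq] at h4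
          omega
        rw [hg1, hg2, Set.indicator_of_mem m1, Set.indicator_of_notMem m2, h3]
        push_cast; simp
      · have m1 : ω ∈ A ∩ {ω | X n ω = -1} := ⟨hωA, h3⟩
        have m2 : ω ∉ A ∩ {ω | X n ω = 1} := by
          rintro ⟨_, h4⟩
          simp only [Set.mem_ofPred_eq] at h4
          omega
        rw [hg1, hg2, Set.indicator_of_mem m1, Set.indicator_of_notMem m2, h3]
        push_cast; simp
    · have hωA' : ¬ SS X ω n = b := hωA
      rw [if_neg hωA', hg1, hg2, Set.indicator_of_notMem (fun h => hωA h.1),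
        Set.indicator_of_notMem (fun h => hωA h.1)]
      simp
  have c1 := cond_half hm hi 1 n (h1 n) A hA
  have c2 := cond_half hm hi (-1) n (h2 n) A hA
  have c3 : μ[ff X b (n + 1) | FF hm n] =ᵐ[μ] μ[ff X b n + (g1 - g2) | FF hm n] :=
    condExp_congr_ae e1
  have c4 := condExp_add (μ := μ) (ff_int hm h1 h2 b n) (i1.sub i2) (FF hm n)
  have c5 := condExp_sub (μ := μ) i1 i2 (FF hm n)
  have c6 : μ[ff X b n | FF hm n] = ff X b n :=
    condExp_of_stronglyMeasurable ((FF hm).le n) (ff_meas hm b n).stronglyMeasurable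
      (ff_int hm h1 h2 b n)
  filter_upwards [c1, c2, c3, c4, c5] with ω d1 d2 d3 d4 d5
  rw [d3, d4, Pi.add_apply, d5, Pi.sub_apply, c6, d1, d2]
  ring

/-- A one-sided bounded restricted walk visits `b` finitely often. -/
lemma ae_finite_visits (hm : ∀ n, Measurable (X n)) (hi : iIndepFun X μ)
    (h1 : ∀ n, μ {ω | X n ω = 1} = 1 / 2) (h2 : ∀ n, μ {ω | X n ω = -1} = 1 / 2) :
    ∀ᵐ ω ∂μ, ∀ b : ℤ, ((∃ c : ℤ, ∀ n, Wb (SS X ω) b n ≤ c) ∨ (∃ c : ℤ, ∀ n, c ≤ Wb (SS X ω) b n))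
      → ∃ n0, ∀ n, n0 ≤ n → SS X ω n ≠ b := by
  rw [ae_all_iff]
  intro b
  have hmart := ff_martingale hm hi h1 h2 b
  have hbdd : ∀ᵐ ω ∂μ, ∀ i, |ff X b (i + 1) ω - ff X b i ω| ≤ ((1 : NNReal) : ℝ) := by
    filter_upwards [ae_NN hm h1 h2] with ω hω i
    unfold ff
    rw [Wb_succ]
    push_cast
    rw [add_sub_cancel_left]
    split_ifs with h
    · rcases hω.step i with h3 | h3 <;> rw [h3] <;> push_cast <;> simp
    · simp
  have k1 := hmart.submartingale.bddAbove_iff_exists_tendsto hbdd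
  have k2 := hmart.bddAbove_range_iff_bddBelow_range hbdd
  filter_upwards [k1, k2, ae_NN hm h1 h2] with ω e1 e2 hω hor
  have hab : BddAbove (Set.range fun n => ff X b n ω) := by
    rcases hor with ⟨c, hc⟩ | ⟨c, hc⟩
    · refine ⟨(c : ℝ), ?_⟩
      rintro _ ⟨n, rfl⟩
      simp only [ff]
      exact_mod_cast hc n
    · rw [e2]
      refine ⟨(c : ℝ), ?_⟩
      rintro _ ⟨n, rfl⟩
      simp only [ff]
      exact_mod_cast hc n
  obtain ⟨l, hl⟩ := e1.1 hab
  have hcau := hl.cauchySeq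
  rw [Metric.cauchySeq_iff] at hcau
  obtain ⟨N, hN⟩ := hcau (1 / 2) (by norm_num)
  refine ⟨N, fun n hn hb => ?_⟩
  have h5 := hN (n + 1) (by omega) n hn
  rw [Real.dist_eq] at h5
  unfold ff at h5
  rw [Wb_succ, if_pos hb] at h5
  push_cast at h5
  rw [add_sub_cancel_left] at h5
  rcases hω.step n with h6 | h6
  · rw [h6] at h5; push_cast at h5; norm_num at h5
  · rw [h6] at h5; push_cast at h5; norm_num at h5

/-- Three favorite one-side sites occur infinitely often, almost surely. -/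
theorem three_io (hm : ∀ n, Measurable (X n)) (hi : iIndepFun X μ)
    (h1 : ∀ n, μ {ω | X n ω = 1} = 1 / 2) (h2 : ∀ n, μ {ω | X n ω = -1} = 1 / 2) :
    ∀ᵐ ω ∂μ, ∃ᶠ n in atTop, (fav (SS X ω) n).ncard = 3 := by
  have p1 := four_steps hm hi (fun n => {ω | AdjP (SS X ω) n})
    (fun n => meas_dep hm (dep_AdjP n)) (-1) (-1) 1 (-1) h2 h2 h1 h2
  have p2 := four_steps hm hi (fun n => {ω | AdjN (SS X ω) n})
    (fun n => meas_dep hm (dep_AdjN n)) 1 1 (-1) 1 h1 h1 h2 h1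
  filter_upwards [ae_NN hm h1 h2, ae_unbounded hm hi h1 h2, ae_finite_visits hm hi h1 h2, p1, p2]
    with ω hω hM hW q1 q2
  apply final_det hω hM hW
  · intro hf
    have h3 := q1 hf
    rw [frequently_atTop] at h3 ⊢
    intro a
    obtain ⟨n, hn, g1, g2, g3, g4, g5⟩ := h3 a
    refine ⟨n + 5, by omega, patternP hω g1 ?_ ?_ ?_ ?_⟩
    · rw [show n + 2 = n + 1 + 1 from rfl, SS_succ, g2]; ring
    · rw [show n + 3 = n + 2 + 1 from rfl, SS_succ, g3]; ring
    · rw [show n + 4 = n + 3 + 1 from rfl, SS_succ, g4]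
    · rw [show n + 5 = n + 4 + 1 from rfl, SS_succ, g5]; ring
  · intro hf
    have h3 := q2 hf
    rw [frequently_atTop] at h3 ⊢
    intro a
    obtain ⟨n, hn, g1, g2, g3, g4, g5⟩ := h3 a
    refine ⟨n + 5, by omega, patternN hω g1 ?_ ?_ ?_ ?_⟩
    · rw [show n + 2 = n + 1 + 1 from rfl, SS_succ, g2]
    · rw [show n + 3 = n + 2 + 1 from rfl, SS_succ, g3]
    · rw [show n + 4 = n + 3 + 1 from rfl, SS_succ, g4]; ring
    · rw [show n + 5 = n + 4 + 1 from rfl, SS_succ, g5]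

end Pool.Agent.H75.Fav
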